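import Mathlib
import Pool.Agent.Zk79.StarMain

/-!
# MP_ad2f8c_co: starshapedness is decided by clear visibility of `d + 1` LNC points

For every dimension `d` (in particular for every `d ≥ 3`) a compact connected set
`E ⊆ ℝ^d` is starshaped if and only if any `d + 1` (not necessarily distinct) locally non-convex
points of `E` are all clearly visible from one point of `E`.  So `n(d) = d + 1` works in Q1.
-/

set_option autoImplicit false

namespace Pool.Agent.Results.MP_ad2f8c_co.ClearVisibility

open Set Metric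
open scoped InnerProductSpace

/-- `y` sees `x`: the closed segment joining them lies in `E`. -/
def Sees {d : ℕ} (E : Set (EuclideanSpace ℝ (Fin d))) (y x : EuclideanSpace ℝ (Fin d)) : Prop :=
  segment ℝ x y ⊆ E

/-- `E` is starshaped: some point of `E` sees every point of `E`. -/
def Starshaped {d : ℕ} (E : Set (EuclideanSpace ℝ (Fin d))) : Prop :=
  ∃ y ∈ E, ∀ x ∈ E, Sees E y x

/-- `x` is an LNC point of `E`: a boundary point such that `B_r(x) ∩ E` is not convex for
every `r > 0`. -/
def IsLNC {d : ℕ} (E : Set (EuclideanSpace ℝ (Fin d))) (x : EuclideanSpace ℝ (Fin d)) : Prop :=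
  x ∈ frontier E ∧ ∀ r : ℝ, 0 < r → ¬ Convex ℝ (ball x r ∩ E)

/-- `x` is clearly visible from `y`: for some `r > 0`, `y` sees every point of `B_r(x) ∩ E`. -/
def ClearlyVisible {d : ℕ} (E : Set (EuclideanSpace ℝ (Fin d)))
    (x y : EuclideanSpace ℝ (Fin d)) : Prop :=
  ∃ r : ℝ, 0 < r ∧ ∀ w ∈ ball x r ∩ E, Sees E y w

/-- Property `C_n`: any `n` LNC points (not necessarily distinct) are all clearly visible from
a single point of `E`. -/
def PropC {d : ℕ} (n : ℕ) (E : Set (EuclideanSpace ℝ (Fin d))) : Prop :=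
  ∀ x : Fin n → EuclideanSpace ℝ (Fin d), (∀ i, IsLNC E (x i)) →
    ∃ y ∈ E, ∀ i, ClearlyVisible E (x i) y

theorem cv_iff {d : ℕ} {E : Set (EuclideanSpace ℝ (Fin d))} {x y : EuclideanSpace ℝ (Fin d)} :
    ClearlyVisible E x y ↔ Pool.Agent.Zk79.StarLNC.CV E x y := by
  unfold ClearlyVisible Pool.Agent.Zk79.StarLNC.CV Sees
  simp only [segment_symm ℝ y]

theorem lnc_of {d : ℕ} {E : Set (EuclideanSpace ℝ (Fin d))} {z : EuclideanSpace ℝ (Fin d)}
    (hz : z ∈ E) (h : Pool.Agent.Zk79.StarLNC.LN E z) : IsLNC E z := by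
  refine ⟨?_, h⟩
  rw [frontier, mem_sdiff]
  refine ⟨subset_closure hz, ?_⟩
  intro hint
  obtain ⟨r, hr, hball⟩ := Metric.mem_nhds_iff.1 (mem_interior_iff_mem_nhds.1 hint)
  apply h r hr
  rw [inter_eq_left.2 hball]
  exact convex_ball z r

theorem starshaped_of_propC {d : ℕ} {E : Set (EuclideanSpace ℝ (Fin d))} (hE : IsCompact E)
    (hconn : IsConnected E) (hC : PropC (d + 1) E) : Starshaped E := by
  classical
  by_cases hex : ∃ z ∈ E, Pool.Agent.Zk79.StarLNC.LN E z
  · -- Helly's theorem
    let ι := {z : EuclideanSpace ℝ (Fin d) // z ∈ E ∧ Pool.Agent.Zk79.StarLNC.LN E z}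
    let F : ι → Set (EuclideanSpace ℝ (Fin d)) := fun z =>
      closure (convexHull ℝ {y | y ∈ E ∧ Pool.Agent.Zk79.StarLNC.CV E z.1 y})
    have hconv : ∀ i, Convex ℝ (F i) := fun i => (convex_convexHull ℝ _).closure
    have hcomp : ∀ i, IsCompact (F i) := by
      intro i
      apply Metric.isCompact_of_isClosed_isBounded isClosed_closure
      apply Bornology.IsBounded.closure
      rw [isBounded_convexHull]
      exact hE.isBounded.subset fun y hy => hy.1
    have hinter : ∀ I : Finset ι, I.card ≤ Module.finrank ℝ (EuclideanSpace ℝ (Fin d)) + 1 →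
        (⋂ i ∈ I, F i).Nonempty := by
      intro I hI
      rw [finrank_euclideanSpace_fin] at hI
      rcases I.eq_empty_or_nonempty with rfl | ⟨i0, hi0⟩
      · simp
      · let f : Fin (d + 1) → ι := fun k =>
          if h : k.1 < I.card then (I.equivFin.symm ⟨k.1, h⟩).1 else i0
        obtain ⟨y, hy, hyv⟩ := hC (fun k => (f k).1) (fun k => lnc_of (f k).2.1 (f k).2.2)
        refine ⟨y, ?_⟩
        rw [mem_iInter₂]
        intro i hi
        apply subset_closure
        apply subset_convexHull ℝ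
        refine ⟨hy, ?_⟩
        have hk : (I.equivFin ⟨i, hi⟩).1 < d + 1 := lt_of_lt_of_le (I.equivFin ⟨i, hi⟩).2 hI
        have h1 := hyv ⟨(I.equivFin ⟨i, hi⟩).1, hk⟩
        have h2 : f ⟨(I.equivFin ⟨i, hi⟩).1, hk⟩ = i := by
          simp [f]
        rw [h2] at h1
        exact cv_iff.1 h1
    obtain ⟨q, hq⟩ := Convex.helly_theorem_compact' (𝕜 := ℝ) hconv hcomp hinter
    have hcen : Pool.Agent.Zk79.StarLNC.Cen E q := by
      intro z hz hLN m b hmb
      have h1 : q ∈ F ⟨z, hz, hLN⟩ := mem_iInter.1 hq _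
      have h2 : F ⟨z, hz, hLN⟩ ⊆ {y | ⟪m, y⟫_ℝ ≤ b} := by
        apply closure_minimal
        · apply convexHull_min
          · intro y hy
            exact hmb y hy.1 hy.2
          · exact convex_halfSpace_le (innerSL ℝ m).toLinearMap.isLinear b
        · apply isClosed_le _ continuous_const
          fun_prop
      exact h2 h1
    have hcore := Pool.Agent.Zk79.StarLNC.core hE hconn.isPreconnected hcen (Or.inr hex)
    obtain ⟨w, hw⟩ := hconn.nonempty
    refine ⟨q, hcore w hw (left_mem_segment ℝ q w), ?_⟩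
    intro x hx
    unfold Sees
    rw [segment_symm]
    exact hcore x hx
  · obtain ⟨q, hq⟩ := hconn.nonempty
    have hcen : Pool.Agent.Zk79.StarLNC.Cen E q := fun z hz hLN => absurd ⟨z, hz, hLN⟩ hex
    refine ⟨q, hq, ?_⟩
    intro x hx
    unfold Sees
    rw [segment_symm]
    exact Pool.Agent.Zk79.StarLNC.core hE hconn.isPreconnected hcen (Or.inl hq) x hx

/-- **Full answer to Q1 (positive), with `n(d) = d + 1`.**  For every `d`, a compact connected
`E ⊆ ℝ^d` has property `C_{d+1}` if and only if it is starshaped. -/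
theorem result (d : ℕ) (E : Set (EuclideanSpace ℝ (Fin d))) (hE : IsCompact E)
    (hconn : IsConnected E) : PropC (d + 1) E ↔ Starshaped E := by
  constructor
  · exact starshaped_of_propC hE hconn
  · rintro ⟨y, hy, h⟩ x _
    exact ⟨y, hy, fun i => ⟨1, one_pos, fun w hw => h w hw.2⟩⟩

end Pool.Agent.Results.MP_ad2f8c_co.ClearVisibility
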